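import Mathlib
import Pool.Agent.Helper82.IW.Goals

/-!
# Packet BD: bound for the derivatives of the multiplier `B`
-/

open Complex MeasureTheory Set Filter Topology
open scoped ContDiff ComplexConjugate

namespace Pool.Agent.Helper93.IW

open Pool.Agent.Helper82.IW

noncomputable section

theorem Rr_pos {ε : ℝ} (hε : 0 < ε) (H : ℂ → ℂ) (z : ℂ) : 0 < Rr ε H z := by
  unfold Rr
  positivity

theorem Rr_ge {ε : ℝ} (_hε : 0 < ε) (H : ℂ → ℂ) (z : ℂ) : ε ≤ Rr ε H z := by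
  unfold Rr
  apply Real.le_sqrt_of_sq_le
  nlinarith [sq_nonneg ‖H z‖]

theorem norm_le_Rr {ε : ℝ} (H : ℂ → ℂ) (z : ℂ) : ‖H z‖ ≤ Rr ε H z := by
  unfold Rr
  apply Real.le_sqrt_of_sq_le
  nlinarith [sq_nonneg ε]

theorem ta_mem (ν ρ r : ℝ) (hρ : 0 < ρ) (hr : 0 < r) : 0 ≤ ta ν ρ r ∧ ta ν ρ r ≤ 1 := by
  unfold ta
  have h : 0 ≤ (r / ρ) ^ (2 * ν) := Real.rpow_nonneg (by positivity) _
  refine ⟨by positivity, ?_⟩
  rw [div_le_one (by linarith)]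
  linarith

theorem step {ε ν ρ : ℝ} {H : ℂ → ℂ} {c : ℂ → ℝ} (hε : 0 < ε) (hν : 0 < ν) (hν4 : ν ≤ 1 / 4)
    (hρ : 0 < ρ) (z v : ℂ) (dH : DifferentiableAt ℝ H z) (dc : DifferentiableAt ℝ c z)
    (dR : DifferentiableAt ℝ (Rr ε H) z) (dT : DifferentiableAt ℝ (fun z => ta ν ρ (Rr ε H z)) z)
    (hc0 : 0 ≤ c z) (hc1 : c z ≤ 1)
    (hR : fderiv ℝ (Rr ε H) z v = (conj (H z) * fderiv ℝ H z v).re / Rr ε H z)
    (hT : fderiv ℝ (fun z => ta ν ρ (Rr ε H z)) z v =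
      -(2 * ν / Rr ε H z) * (ta ν ρ (Rr ε H z) * (1 - ta ν ρ (Rr ε H z))) * fderiv ℝ (Rr ε H) z v) :
    ‖fderiv ℝ (Bf ε ν ρ c H) z v‖ ≤ 3 / ε * ‖fderiv ℝ H z v‖ + |fderiv ℝ c z v| := by
  have hRp : 0 < Rr ε H z := Rr_pos hε H z
  have hRε : ε ≤ Rr ε H z := Rr_ge hε H z
  have hHR : ‖H z‖ ≤ Rr ε H z := norm_le_Rr H z
  obtain ⟨ht0, ht1⟩ := ta_mem ν ρ (Rr ε H z) hρ hRp
  have hBeq : Bf ε ν ρ c H = fun w => (1 - ta ν ρ (Rr ε H w) * c w) • ((Rr ε H w)⁻¹ • H w) := by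
    funext w
    unfold Bf
    rw [Complex.real_smul, Complex.real_smul, Complex.ofReal_inv]
    ring
  have h1 : HasFDerivAt (fun w => (Rr ε H w)⁻¹ • H w)
      ((Rr ε H z)⁻¹ • fderiv ℝ H z + ((-(Rr ε H z ^ 2)⁻¹) • fderiv ℝ (Rr ε H) z).smulRight (H z)) z := by
    have hi : HasFDerivAt (fun w => (Rr ε H w)⁻¹) ((-(Rr ε H z ^ 2)⁻¹) • fderiv ℝ (Rr ε H) z) z :=
      (hasDerivAt_inv hRp.ne').comp_hasFDerivAt z dR.hasFDerivAt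
    exact hi.smul dH.hasFDerivAt
  have h2 : HasFDerivAt (fun w => 1 - ta ν ρ (Rr ε H w) * c w)
      (-(ta ν ρ (Rr ε H z) • fderiv ℝ c z + c z • fderiv ℝ (fun z => ta ν ρ (Rr ε H z)) z)) z := by
    have := (dT.hasFDerivAt.mul dc.hasFDerivAt).const_sub 1
    exact this
  have h3 : HasFDerivAt (fun w => (1 - ta ν ρ (Rr ε H w) * c w) • ((Rr ε H w)⁻¹ • H w)) _ z := h2.smul h1
  have h4 : fderiv ℝ (Bf ε ν ρ c H) z v =
      (1 - ta ν ρ (Rr ε H z) * c z) • ((Rr ε H z)⁻¹ • fderiv ℝ H z v +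
        (-(Rr ε H z ^ 2)⁻¹ * fderiv ℝ (Rr ε H) z v) • H z) +
      (-(ta ν ρ (Rr ε H z) * fderiv ℝ c z v + c z * fderiv ℝ (fun z => ta ν ρ (Rr ε H z)) z v)) •
        ((Rr ε H z)⁻¹ • H z) := by
    rw [hBeq, h3.fderiv]
    simp
  rw [h4]
  set R := Rr ε H z with hRdef
  set T := ta ν ρ R with hTdef
  set hv := fderiv ℝ H z v
  set cv := fderiv ℝ c z v
  set Rv := fderiv ℝ (Rr ε H) z v
  set Tv := fderiv ℝ (fun z => ta ν ρ (Rr ε H z)) z v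
  have hRv : |Rv| ≤ ‖hv‖ := by
    rw [hR, abs_div, abs_of_pos hRp, div_le_iff₀ hRp]
    calc |(conj (H z) * hv).re| ≤ ‖conj (H z) * hv‖ := Complex.abs_re_le_norm _
      _ = ‖H z‖ * ‖hv‖ := by rw [norm_mul, Complex.norm_conj]
      _ ≤ ‖hv‖ * R := by nlinarith [norm_nonneg hv]
  have hTT : T * (1 - T) ≤ 1 / 4 := by nlinarith [sq_nonneg (T - 1 / 2)]
  have hTT0 : 0 ≤ T * (1 - T) := mul_nonneg ht0 (by linarith)
  have hTv : |Tv| ≤ ‖hv‖ / R := by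
    rw [hT, abs_mul, abs_mul, abs_neg, abs_of_nonneg hTT0, abs_of_pos (by positivity : 0 < 2 * ν / R)]
    have hh : 2 * ν / R * (T * (1 - T)) ≤ 1 / R := by
      rw [div_mul_eq_mul_div, div_le_div_iff_of_pos_right hRp]
      nlinarith
    calc 2 * ν / R * (T * (1 - T)) * |Rv| ≤ 1 / R * ‖hv‖ :=
          mul_le_mul hh hRv (abs_nonneg _) (by positivity)
      _ = ‖hv‖ / R := by ring
  have hHR1 : ‖(R)⁻¹ • H z‖ ≤ 1 := by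
    rw [norm_smul, Real.norm_eq_abs, abs_of_pos (by positivity : 0 < R⁻¹), inv_mul_le_iff₀ hRp]
    linarith
  have e1 : ‖(R)⁻¹ • hv + (-(R ^ 2)⁻¹ * Rv) • H z‖ ≤ 2 * (‖hv‖ / R) := by
    have a1 : ‖(R)⁻¹ • hv‖ = ‖hv‖ / R := by
      rw [norm_smul, Real.norm_eq_abs, abs_of_pos (by positivity : 0 < R⁻¹)]
      ring
    have a2 : ‖(-(R ^ 2)⁻¹ * Rv) • H z‖ ≤ ‖hv‖ / R := by
      have : (-(R ^ 2)⁻¹ * Rv) • H z = (-(R⁻¹) * Rv) • ((R)⁻¹ • H z) := by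
        rw [smul_smul]
        congr 1
        field_simp
      rw [this, norm_smul]
      calc ‖-(R⁻¹) * Rv‖ * ‖(R)⁻¹ • H z‖ ≤ ‖-(R⁻¹) * Rv‖ * 1 :=
            mul_le_mul_of_nonneg_left hHR1 (norm_nonneg _)
        _ = R⁻¹ * |Rv| := by
            rw [mul_one, Real.norm_eq_abs, abs_mul, abs_neg, abs_of_pos (by positivity : 0 < R⁻¹)]
        _ ≤ R⁻¹ * ‖hv‖ := mul_le_mul_of_nonneg_left hRv (by positivity)
        _ = ‖hv‖ / R := by ring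
    calc ‖(R)⁻¹ • hv + (-(R ^ 2)⁻¹ * Rv) • H z‖ ≤ ‖(R)⁻¹ • hv‖ + ‖(-(R ^ 2)⁻¹ * Rv) • H z‖ := norm_add_le _ _
      _ ≤ 2 * (‖hv‖ / R) := by rw [a1]; linarith
  have e2 : ‖(1 - T * c z) • ((R)⁻¹ • hv + (-(R ^ 2)⁻¹ * Rv) • H z)‖ ≤ 2 * (‖hv‖ / R) := by
    rw [norm_smul, Real.norm_eq_abs]
    have : |1 - T * c z| ≤ 1 := by
      rw [abs_le]
      constructor <;> nlinarith
    calc |1 - T * c z| * ‖(R)⁻¹ • hv + (-(R ^ 2)⁻¹ * Rv) • H z‖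
        ≤ 1 * ‖(R)⁻¹ • hv + (-(R ^ 2)⁻¹ * Rv) • H z‖ :=
          mul_le_mul_of_nonneg_right this (norm_nonneg _)
      _ ≤ 2 * (‖hv‖ / R) := by rw [one_mul]; exact e1
  have e3 : ‖(-(T * cv + c z * Tv)) • ((R)⁻¹ • H z)‖ ≤ |cv| + ‖hv‖ / R := by
    rw [norm_smul, Real.norm_eq_abs, abs_neg]
    calc |T * cv + c z * Tv| * ‖(R)⁻¹ • H z‖ ≤ |T * cv + c z * Tv| * 1 :=
          mul_le_mul_of_nonneg_left hHR1 (abs_nonneg _)
      _ ≤ |T * cv| + |c z * Tv| := by rw [mul_one]; exact abs_add_le _ _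
      _ = T * |cv| + c z * |Tv| := by rw [abs_mul, abs_mul, abs_of_nonneg ht0, abs_of_nonneg hc0]
      _ ≤ 1 * |cv| + 1 * |Tv| := by
          gcongr
      _ ≤ |cv| + ‖hv‖ / R := by linarith
  have e4 : ‖hv‖ / R ≤ ‖hv‖ / ε := div_le_div_of_nonneg_left (norm_nonneg _) hε hRε
  calc _ ≤ ‖(1 - T * c z) • ((R)⁻¹ • hv + (-(R ^ 2)⁻¹ * Rv) • H z)‖ +
        ‖(-(T * cv + c z * Tv)) • ((R)⁻¹ • H z)‖ := norm_add_le _ _
    _ ≤ 2 * (‖hv‖ / R) + (|cv| + ‖hv‖ / R) := add_le_add e2 e3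
    _ ≤ 3 * (‖hv‖ / ε) + |cv| := by linarith
    _ = 3 / ε * ‖hv‖ + |cv| := by ring

theorem BD (hSPB : S_SPB) (_hQ : S_QUAD) : Pool.Agent.Helper82.IW.S_BD := by
  intro ε ν ρ H c hε hν hν4 hρ hH hc hc01 z
  obtain ⟨_, h2, h3, _⟩ := hSPB
  obtain ⟨hRs, hRx, hRy⟩ := h2 ε H hε hH
  obtain ⟨hTs, hTx, hTy⟩ := h3 ε ν ρ H hε hρ hH
  have dH : DifferentiableAt ℝ H z := hH.smooth.differentiable (by simp) z
  have dc : DifferentiableAt ℝ c z := hc.smooth.differentiable (by simp) z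
  have dR : DifferentiableAt ℝ (Rr ε H) z := hRs.smooth.differentiable (by simp) z
  have dT : DifferentiableAt ℝ (fun z => ta ν ρ (Rr ε H z)) z := hTs.smooth.differentiable (by simp) z
  exact ⟨step hε hν hν4 hρ z 1 dH dc dR dT (hc01 z).1 (hc01 z).2 (hRx z) (hTx z),
    step hε hν hν4 hρ z I dH dc dR dT (hc01 z).1 (hc01 z).2 (hRy z) (hTy z)⟩

end

end Pool.Agent.Helper93.IW
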